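import Mathlib
import Pool.Agent.Helper730.Exist

set_option autoImplicit false
set_option linter.unusedSectionVars false

open scoped Pointwise
open Finset

namespace Pool.Agent.Results.MP_4c924c_co.Minimisers

/-- The `h`-fold sumset `hA`. -/
def sumset {G : Type*} [AddCommGroup G] (h : ℕ) (A : Finset G) : Set G :=
  {x | ∃ f : Fin h → G, (∀ i, f i ∈ A) ∧ ∑ i, f i = x}

/-- The least size of `hA` over the `m`-subsets `A` of `G`. -/
noncomputable def rho (G : Type*) [AddCommGroup G] (m h : ℕ) : ℕ :=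
  sInf {s : ℕ | ∃ A : Finset G, A.card = m ∧ (sumset h A).ncard = s}

open Pool.Agent.Helper730.Kneser
open Pool.Agent.Helper730.Atoms
open Pool.Agent.Helper730.Signed
open Pool.Agent.Helper730.Rel
open Pool.Agent.Helper730.Tower

section general

variable {G : Type*} [AddCommGroup G] [Fintype G] [DecidableEq G]

theorem sumset_eq (h : ℕ) (A : Finset G) : sumset h A = (hs A h : Set G) := by
  induction h with
  | zero =>
    ext x
    simp only [sumset, Set.mem_ofPred_eq, hs_zero, Finset.coe_singleton, Set.mem_singleton_iff]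
    constructor
    · rintro ⟨f, -, hf⟩
      simpa using hf.symm
    · rintro rfl
      exact ⟨fun i => i.elim0, fun i => i.elim0, by simp⟩
  | succ h ih =>
    ext x
    rw [hs_succ]
    constructor
    · rintro ⟨f, hf, rfl⟩
      rw [Finset.mem_coe, Fin.sum_univ_castSucc]
      apply Finset.add_mem_add
      · have : (∑ i : Fin h, f i.castSucc) ∈ sumset h A := ⟨fun i => f i.castSucc, fun i => hf _, rfl⟩
        rw [ih] at this
        exact this
      · exact hf _
    · intro hx
      rw [Finset.mem_coe] at hx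
      obtain ⟨a, ha, b, hb, rfl⟩ := Finset.mem_add.mp hx
      have : a ∈ sumset h A := by rw [ih]; exact ha
      obtain ⟨f, hf, rfl⟩ := this
      refine ⟨Fin.snoc (α := fun _ => G) f b, ?_, ?_⟩
      · intro i
        refine Fin.lastCases ?_ (fun j => ?_) i
        · rw [Fin.snoc_last]; exact hb
        · rw [Fin.snoc_castSucc]; exact hf j
      · rw [Fin.sum_univ_castSucc]
        simp

theorem ncard_sumset (h : ℕ) (A : Finset G) : (sumset h A).ncard = (hs A h).card := by
  rw [sumset_eq, Set.ncard_coe_finset]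

theorem rho_le (h m : ℕ) (A : Finset G) (hA : A.card = m) : rho G m h ≤ (hs A h).card := by
  apply Nat.sInf_le
  exact ⟨A, hA, ncard_sumset h A⟩

theorem rho_attained (h m : ℕ) (hmn : m ≤ Fintype.card G) :
    ∃ A : Finset G, A.card = m ∧ (hs A h).card = rho G m h := by
  have hne : {s : ℕ | ∃ A : Finset G, A.card = m ∧ (sumset h A).ncard = s}.Nonempty := by
    obtain ⟨A, -, hA⟩ := Finset.exists_subset_card_eq
      (show m ≤ (Finset.univ : Finset G).card by rw [Finset.card_univ]; exact hmn)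
    exact ⟨_, A, hA, rfl⟩
  obtain ⟨A, hA, hs'⟩ := Nat.sInf_mem hne
  refine ⟨A, hA, ?_⟩
  rw [← ncard_sumset, hs']
  rfl

/-- Lower bound under the divisibility condition. -/
theorem lower (k m : ℕ) (hm : 1 ≤ m)
    (hC : ∀ d, d ∣ Fintype.card G → (k + 2) * ((m - 1) % d) + 1 ≤ d)
    (A : Finset G) (hA : A.card = m) : (k + 2) * (m - 1) + 1 ≤ (hs A (k + 2)).card := by
  have hAne : A.Nonempty := by rw [← Finset.card_pos]; omega
  set L := stab (hs A (k + 2)) with hL
  have h1 := kneser_h hAne (k + 1)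
  have e1 : k + 1 + 1 = k + 2 := rfl
  rw [e1, ← hL] at h1
  obtain ⟨c, hc⟩ := per_card (A + fs L) L (add_fs_per A L)
  have h2 := Finset.card_le_card (subset_add_fs A L)
  have hdv : (fs L).card ∣ Fintype.card G := by
    have := fs_dvd (le_top : L ≤ ⊤)
    rwa [fs_top_card] at this
  have h3 := hC _ hdv
  have hLpos := fs_card_pos L
  set D := (fs L).card with hD
  have h4 : (m - 1) / D + 1 ≤ c := by
    have h5 : m - 1 < c * D := by
      rw [mul_comm]; omega
    have := (Nat.div_lt_iff_lt_mul hLpos).mpr h5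
    omega
  have h5 : (k + 2) * (A + fs L).card = (k + 2) * (c * D) := by rw [hc]; ring
  have h6 : (k + 2) * (((m - 1) / D + 1) * D) ≤ (k + 2) * (c * D) :=
    Nat.mul_le_mul_left _ (Nat.mul_le_mul_right _ h4)
  have h7 := Nat.div_add_mod (m - 1) D
  have h8 : (k + 2) * (((m - 1) / D + 1) * D)
      = (k + 2) * (D * ((m - 1) / D)) + (k + 1) * D + D := by ring
  have h9 : (k + 2) * (m - 1) = (k + 2) * (D * ((m - 1) / D)) + (k + 2) * ((m - 1) % D) := by
    conv_lhs => rw [← h7]
    ring
  omega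

/-- Upper bound for every divisor. -/
theorem upper_div (k m d : ℕ) (hm : 1 ≤ m) (hmn : m ≤ Fintype.card G)
    (hd : d ∣ Fintype.card G) :
    rho G m (k + 2) ≤ ((k + 2) * ((m - 1) / d) + 1) * d := by
  classical
  obtain ⟨K, -, hK⟩ := exists_sub d (⊥ : AddSubgroup G) (by rw [fs_bot_card, mul_one]; exact hd)
  rw [fs_bot_card, mul_one] at hK
  have hdpos : 0 < d := by rw [← hK]; exact fs_card_pos K
  obtain ⟨s, hs'⟩ := hd
  have hq : (m - 1) / d + 1 ≤ s := by
    have h1 : m - 1 < s * d := by rw [mul_comm, ← hs']; omega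
    have := (Nat.div_lt_iff_lt_mul hdpos).mpr h1
    omega
  obtain ⟨B, h1, -, h3, h4⟩ := upper k _ K ⊤ ((m - 1) / d + 1) rfl le_top
    (Nat.le_add_left 1 _) (by
    rw [fs_top_card, hK, hs', mul_comm d s]
    exact Nat.mul_le_mul_right _ hq)
  rw [hK] at h3 h4
  have hmB : m ≤ B.card := by
    rw [h3]
    have h5 := Nat.div_add_mod (m - 1) d
    have h6 := Nat.mod_lt (m - 1) hdpos
    have h7 : ((m - 1) / d + 1) * d = d * ((m - 1) / d) + d := by ring
    omega
  obtain ⟨A, hAB, hA⟩ := Finset.exists_subset_card_eq hmB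
  have h5 := rho_le (k + 2) m A hA
  have h6 := Finset.card_le_card (hs_mono hAB (k + 2))
  have e : (m - 1) / d + 1 - 1 = (m - 1) / d := Nat.add_sub_cancel _ _
  rw [e] at h4
  omega

end general

/-- **Classification.** For a finite abelian group `G` of order `n` and `h ≥ 2`, `1 ≤ m ≤ n`:
`ρ(G, m, h) = h m - h + 1 < n` exactly when `h m - h + 1 < n` and
`h ((m - 1) mod d) + 1 ≤ d` for every divisor `d` of `n`; and in that case the `m`-subsets `A`
with `|hA| = h m - h + 1` are exactly the sets obtained from a tower `B` over a subgroup `K` by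
deleting `(h - 1) (|K| - 1) / h` arbitrary elements. -/
theorem result (G : Type*) [AddCommGroup G] [Fintype G] (h m : ℕ) (hh : 2 ≤ h) (hm : 1 ≤ m)
    (hmn : m ≤ Fintype.card G) :
    ((rho G m h = h * m - h + 1 ∧ h * m - h + 1 < Fintype.card G) ↔
      (h * m - h + 1 < Fintype.card G ∧
        ∀ d : ℕ, d ∣ Fintype.card G → h * ((m - 1) % d) + 1 ≤ d)) ∧
    ((rho G m h = h * m - h + 1 ∧ h * m - h + 1 < Fintype.card G) →
      ∀ A : Finset G, A.card = m →
        ((sumset h A).ncard = h * m - h + 1 ↔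
          ∃ (x : G) (K H : AddSubgroup G) (B : Finset G),
            Tower h x K H (B : Set G) ∧ A ⊆ B ∧
              h * (B.card - A.card) = (h - 1) * (Nat.card K - 1))) := by
  classical
  obtain ⟨k, rfl⟩ : ∃ k, h = k + 2 := ⟨h - 2, by omega⟩
  have hval : (k + 2) * m - (k + 2) + 1 = (k + 2) * (m - 1) + 1 := by
    obtain ⟨m', rfl⟩ : ∃ m', m = m' + 1 := ⟨m - 1, by omega⟩
    have e : m' + 1 - 1 = m' := by omega
    rw [e]
    have : (k + 2) * (m' + 1) = (k + 2) * m' + (k + 2) := by ring
    omega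
  have hfirst : (rho G m (k + 2) = (k + 2) * m - (k + 2) + 1 ∧
      (k + 2) * m - (k + 2) + 1 < Fintype.card G) ↔
      ((k + 2) * m - (k + 2) + 1 < Fintype.card G ∧
        ∀ d : ℕ, d ∣ Fintype.card G → (k + 2) * ((m - 1) % d) + 1 ≤ d) := by
    rw [hval]
    constructor
    · rintro ⟨h1, h2⟩
      refine ⟨h2, ?_⟩
      intro d hd
      have h3 := upper_div k m d hm hmn hd
      rw [h1] at h3
      have h7 := Nat.div_add_mod (m - 1) d
      have h9 : (k + 2) * (m - 1) = (k + 2) * ((m - 1) / d) * d + (k + 2) * ((m - 1) % d) := by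
        conv_lhs => rw [← h7]
        ring
      have h10 : ((k + 2) * ((m - 1) / d) + 1) * d = (k + 2) * ((m - 1) / d) * d + d := by ring
      omega
    · rintro ⟨h1, h2⟩
      refine ⟨?_, h1⟩
      apply le_antisymm
      · have := upper_div k m 1 hm hmn (one_dvd _)
        simpa using this
      · obtain ⟨A, hA, hs'⟩ := rho_attained (k + 2) m hmn
        rw [← hs']
        exact lower k m hm h2 A hA
  refine ⟨hfirst, ?_⟩
  intro h0 A hA
  obtain ⟨-, hC⟩ := hfirst.mp h0
  have hAne : A.Nonempty := by rw [← Finset.card_pos]; omega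
  rw [ncard_sumset, hval]
  have hk1 : k + 2 - 1 = k + 1 := by omega
  rw [hk1]
  constructor
  · intro h1
    obtain ⟨x, K, H, B, t, hAB, hw⟩ := nec hAne hA hC h1
    refine ⟨x, K, H, B, t, hAB, ?_⟩
    rw [← fs_card_eq, ← hw, Finset.card_sdiff_of_subset hAB]
  · rintro ⟨x, K, H, B, t, hAB, hw⟩
    apply suff t hAB hAne hA hC
    rw [← fs_card_eq, ← Finset.card_sdiff_of_subset hAB] at hw
    exact hw

end Pool.Agent.Results.MP_4c924c_co.Minimisers
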